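import Pool.Agent.H121.SH.Iface
import Pool.Agent.H121.Z987.Rs

/-! SH-MAINX: the recursion. -/

set_option autoImplicit false

open scoped BigOperators InnerProductSpace Topology ENNReal
open Filter MeasureTheory

namespace Pool.Agent.H105.SH

open Pool.Agent.H121.SH
open Pool.Agent.H121.Z987 (lint_resample update_meas)

theorem rpow_sum_le {α : Type} (F : Finset α) (a : α → ℝ≥0∞) {s : ℝ} (hs0 : 0 < s) (hs1 : s ≤ 1) :
    (∑ i ∈ F, a i) ^ s ≤ ∑ i ∈ F, a i ^ s := by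
  classical
  induction F using Finset.induction_on with
  | empty => simp [ENNReal.zero_rpow_of_pos hs0]
  | insert i F hi ih =>
    rw [Finset.sum_insert hi, Finset.sum_insert hi]
    refine (ENNReal.rpow_add_le_add_rpow _ _ hs0.le hs1).trans ?_
    gcongr

section

variable {ι : Type}

/-- the effective energy at `x` -/
noncomputable def bt (t : ι → ι → ℝ) (N : ι → Finset ι) (lam : ℝ) (Ω : Set ι) (z : ℂ) (x : ι)
    (ω : ι → ℝ) : ℂ :=
  z + ∑ w ∈ N x, ∑ w' ∈ N x, ((t x w : ℝ) : ℂ) * ((t x w' : ℝ) : ℂ) *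
    GR t (fun p => lam * ω p) (Ω \ {x}) z w w'

theorem gr1_update (hS : S_sch) {K : ℕ} {t : ι → ι → ℝ} {N : ι → Finset ι} (hG : Grf K t N)
    (lam : ℝ) (Ω : Set ι) {z : ℂ} (hz : 0 < z.im) (x : ι) [DecidableEq ι] (ω : ι → ℝ) (v : ℝ)
    (p q : ι) :
    GR t (fun p => lam * Function.update ω x v p) (Ω \ {x}) z p q =
      GR t (fun p => lam * ω p) (Ω \ {x}) z p q := by
  refine (hS ι K t N hG (fun p => lam * ω p) (Ω \ {x}) z hz).2.1 _ ?_ p q
  intro p hp
  have : p ≠ x := fun h => hp.2 (by simp [h])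
  simp only [Function.update_of_ne this]

theorem gr_diag (hS : S_sch) {K : ℕ} {t : ι → ι → ℝ} {N : ι → Finset ι} (hG : Grf K t N)
    (lam : ℝ) (Ω : Set ι) {z : ℂ} (hz : 0 < z.im) (x : ι) (hx : x ∈ Ω) [DecidableEq ι] (ω : ι → ℝ)
    (v : ℝ) :
    GR t (fun p => lam * Function.update ω x v p) Ω z x x *
      (((lam * v : ℝ) : ℂ) - bt t N lam Ω z x ω) = 1 := by
  have h1 := ((hS ι K t N hG (fun p => lam * Function.update ω x v p) Ω z hz).2.2.2 x hx).2.1
  simp only [gr1_update hS hG lam Ω hz x ω v, Function.update_self] at h1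
  rw [← h1]
  unfold bt
  ring

theorem gr_norm (hS : S_sch) {K : ℕ} {t : ι → ι → ℝ} {N : ι → Finset ι} (hG : Grf K t N)
    (lam : ℝ) (Ω : Set ι) {z : ℂ} (hz : 0 < z.im) (x : ι) (hx : x ∈ Ω) [DecidableEq ι] (ω : ι → ℝ)
    (v : ℝ) :
    0 < ‖((lam * v : ℝ) : ℂ) - bt t N lam Ω z x ω‖ ∧
    ‖GR t (fun p => lam * Function.update ω x v p) Ω z x x‖ =
      ‖((lam * v : ℝ) : ℂ) - bt t N lam Ω z x ω‖⁻¹ := by
  have h1 := gr_diag hS hG lam Ω hz x hx ω v
  have h2 : ((lam * v : ℝ) : ℂ) - bt t N lam Ω z x ω ≠ 0 := by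
    intro h
    rw [h, mul_zero] at h1
    exact zero_ne_one h1
  refine ⟨norm_pos_iff.2 h2, ?_⟩
  rw [← norm_inv, eq_inv_of_mul_eq_one_left h1]

theorem enorm_rpow (a : ℂ) {s : ℝ} (hs : 0 ≤ s) : ‖a‖ₑ ^ s = ENNReal.ofReal (‖a‖ ^ s) := by
  rw [← ofReal_norm, ENNReal.ofReal_rpow_of_nonneg (norm_nonneg _) hs]

/-- the integral over the value at `x` -/
theorem diag_le (hS : S_sch) (hO : S_one) {D lam h : ℝ} (hD : 0 < D) (hlam : 1 ≤ lam) (h0 : 0 < h)
    (h1 : h ≤ 1 / 2) (μ : Measure ℝ) [IsProbabilityMeasure μ] (hμ : Dn D μ)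
    {K : ℕ} {t : ι → ι → ℝ} {N : ι → Finset ι} (hG : Grf K t N)
    (Ω : Set ι) {z : ℂ} (hz : 0 < z.im) (x : ι) (hx : x ∈ Ω) [DecidableEq ι] (ω : ι → ℝ) :
    ∫⁻ v, ‖GR t (fun p => lam * Function.update ω x v p) Ω z x x‖ₑ ^ (1 - h) ∂μ ≤
      ENNReal.ofReal (cC D lam h) := by
  refine le_trans (le_of_eq ?_) (hO D lam h hD hlam h0 h1 μ hμ (bt t N lam Ω z x ω)).1
  refine lintegral_congr fun v => ?_
  rw [enorm_rpow _ (by linarith), (gr_norm hS hG lam Ω hz x hx ω v).2]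

theorem diag_le' (hS : S_sch) (hO : S_one) {D lam h : ℝ} (hD : 0 < D) (hlam : 1 ≤ lam) (h0 : 0 < h)
    (h1 : h ≤ 1 / 2) (μ : Measure ℝ) [IsProbabilityMeasure μ] (hμ : Dn D μ)
    {K : ℕ} {t : ι → ι → ℝ} {N : ι → Finset ι} (hG : Grf K t N)
    (Ω : Set ι) {z : ℂ} (hz : 0 < z.im) (x : ι) (hx : x ∈ Ω) [DecidableEq ι] (ω : ι → ℝ) :
    ∫⁻ v, {ω : ι → ℝ | ‖GR t (fun p => lam * ω p) Ω z x x‖ < lam}.indicator
      (fun ω => ‖GR t (fun p => lam * ω p) Ω z x x‖ₑ ^ (1 - h)) (Function.update ω x v) ∂μ ≤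
      ENNReal.ofReal (cM D lam h) := by
  have hl0 : 0 < lam := by linarith
  refine le_trans (le_of_eq ?_) (hO D lam h hD hlam h0 h1 μ hμ (bt t N lam Ω z x ω)).2.1
  have hms : MeasurableSet {v : ℝ | 1 / lam < ‖((lam * v : ℝ) : ℂ) - bt t N lam Ω z x ω‖} := by
    apply measurableSet_lt measurable_const
    apply Measurable.norm
    apply Measurable.sub_const
    exact Complex.measurable_ofReal.comp (measurable_const_mul lam)
  rw [← lintegral_indicator hms]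
  refine lintegral_congr fun v => ?_
  obtain ⟨e1, e2⟩ := gr_norm hS hG lam Ω hz x hx ω v
  by_cases hv : 1 / lam < ‖((lam * v : ℝ) : ℂ) - bt t N lam Ω z x ω‖
  · rw [Set.indicator_of_mem, Set.indicator_of_mem]
    · rw [enorm_rpow _ (by linarith), e2]
    · exact hv
    · rw [Set.mem_ofPred_eq, e2]
      rw [inv_lt_comm₀ e1 hl0, ← one_div]
      exact hv
  · rw [Set.indicator_of_notMem, Set.indicator_of_notMem]
    · exact hv
    · rw [Set.mem_ofPred_eq, e2]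
      rw [inv_lt_comm₀ e1 hl0, ← one_div]
      exact hv

/-- the pointwise bound -/
theorem pt_le (hS : S_sch) {K : ℕ} {t : ι → ι → ℝ} {N : ι → Finset ι} (hG : Grf K t N)
    {lam h : ℝ} (h0 : 0 < h) (h1 : h ≤ 1 / 2)
    (Ω : Set ι) {z : ℂ} (hz : 0 < z.im) (x : ι) (hx : x ∈ Ω) (y : ι) (hy : y ≠ x)
    (A : Set (ι → ℝ)) (ω : ι → ℝ) :
    A.indicator (fun ω => ‖GR t (fun p => lam * ω p) Ω z x y‖ₑ ^ (1 - h)) ω ≤
      A.indicator (fun ω => ‖GR t (fun p => lam * ω p) Ω z x x‖ₑ ^ (1 - h)) ω *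
        ∑ x' ∈ N x, {ω : ι → ℝ | ‖GR t (fun p => lam * ω p) (Ω \ {x}) z x' x'‖ < lam}.indicator
          (fun ω => ‖GR t (fun p => lam * ω p) (Ω \ {x}) z x' y‖ₑ ^ (1 - h)) ω +
      ∑ x' ∈ N x, {ω : ι → ℝ | lam ≤ ‖GR t (fun p => lam * ω p) (Ω \ {x}) z x' x'‖}.indicator
        (fun ω => ‖GR t (fun p => lam * ω p) Ω z x y‖ₑ ^ (1 - h)) ω := by
  by_cases hA : ω ∈ A
  swap
  · rw [Set.indicator_of_notMem hA]
    exact bot_le
  rw [Set.indicator_of_mem hA, Set.indicator_of_mem hA]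
  by_cases hex : ∃ x' ∈ N x, lam ≤ ‖GR t (fun p => lam * ω p) (Ω \ {x}) z x' x'‖
  · obtain ⟨x', hx', hr⟩ := hex
    refine le_trans ?_ le_add_self
    have h2 : ‖GR t (fun p => lam * ω p) Ω z x y‖ₑ ^ (1 - h) =
        {ω : ι → ℝ | lam ≤ ‖GR t (fun p => lam * ω p) (Ω \ {x}) z x' x'‖}.indicator
        (fun ω => ‖GR t (fun p => lam * ω p) Ω z x y‖ₑ ^ (1 - h)) ω := by
      rw [Set.indicator_of_mem]
      exact hr
    rw [h2]
    exact Finset.single_le_sum (f := fun x' =>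
      {ω : ι → ℝ | lam ≤ ‖GR t (fun p => lam * ω p) (Ω \ {x}) z x' x'‖}.indicator
        (fun ω => ‖GR t (fun p => lam * ω p) Ω z x y‖ₑ ^ (1 - h)) ω) (fun _ _ => bot_le) hx'
  · push Not at hex
    refine le_trans ?_ le_self_add
    have h2 := ((hS ι K t N hG (fun p => lam * ω p) Ω z hz).2.2.2 x hx).2.2.1 y hy
    rw [h2, enorm_neg, enorm_mul, ENNReal.mul_rpow_of_nonneg _ _ (by linarith)]
    gcongr
    calc ‖∑ w ∈ N x, ((t x w : ℝ) : ℂ) * GR t (fun p => lam * ω p) (Ω \ {x}) z w y‖ₑ ^ (1 - h)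
        ≤ (∑ w ∈ N x, ‖GR t (fun p => lam * ω p) (Ω \ {x}) z w y‖ₑ) ^ (1 - h) := by
          apply ENNReal.rpow_le_rpow _ (by linarith)
          refine (enorm_sum_le _ _).trans (Finset.sum_le_sum fun w _ => ?_)
          rw [enorm_mul]
          have h3 : ‖((t x w : ℝ) : ℂ)‖ₑ ≤ 1 := by
            rw [← ofReal_norm, Complex.norm_real, Real.norm_eq_abs]
            rw [← ENNReal.ofReal_one]
            exact ENNReal.ofReal_le_ofReal (hG.le x w)
          calc _ ≤ 1 * ‖GR t (fun p => lam * ω p) (Ω \ {x}) z w y‖ₑ := by gcongr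
            _ = _ := one_mul _
      _ ≤ ∑ w ∈ N x, ‖GR t (fun p => lam * ω p) (Ω \ {x}) z w y‖ₑ ^ (1 - h) :=
          rpow_sum_le _ _ (by linarith) (by linarith)
      _ ≤ _ := by
          refine Finset.sum_le_sum fun w hw => ?_
          rw [Set.indicator_of_mem]
          exact hex w hw

end

/-- the general step -/
theorem step (hS : S_sch) (hM : S_measR) {ι : Type} [Countable ι] {K : ℕ} {t : ι → ι → ℝ}
    {N : ι → Finset ι} (hG : Grf K t N) {lam h : ℝ} (h0 : 0 < h) (h1 : h ≤ 1 / 2)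
    (μ : Measure ℝ) [IsProbabilityMeasure μ]
    (Ω : Set ι) {z : ℂ} (hz : 0 < z.im) (x : ι) (hx : x ∈ Ω) (y : ι) (hy : y ≠ x) [DecidableEq ι]
    (A : Set (ι → ℝ)) (hA : MeasurableSet A) (c : ℝ≥0∞)
    (hc : ∀ ω, ∫⁻ v, A.indicator (fun ω => ‖GR t (fun p => lam * ω p) Ω z x x‖ₑ ^ (1 - h))
      (Function.update ω x v) ∂μ ≤ c) :
    ∫⁻ ω, A.indicator (fun ω => ‖GR t (fun p => lam * ω p) Ω z x y‖ₑ ^ (1 - h)) ω
        ∂(Measure.infinitePi fun _ : ι => μ) ≤
      c * ∑ x' ∈ N x, fb μ lam (1 - h) t (Ω \ {x}) z x' y +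
        ∑ x' ∈ N x, fo μ lam (1 - h) t Ω z x x' y := by
  have hm : ∀ (Ω : Set ι) (p q : ι), Measurable fun ω : ι → ℝ => GR t (fun p => lam * ω p) Ω z p q :=
    fun Ω p q => hM ι K t N hG lam Ω z p q hz.ne'
  have hme : ∀ (Ω : Set ι) (p q : ι),
      Measurable fun ω : ι → ℝ => ‖GR t (fun p => lam * ω p) Ω z p q‖ₑ ^ (1 - h) :=
    fun Ω p q => (hm Ω p q).enorm.pow_const _
  have hF : ∀ x', Measurable fun ω : ι → ℝ =>
      {ω : ι → ℝ | ‖GR t (fun p => lam * ω p) (Ω \ {x}) z x' x'‖ < lam}.indicator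
          (fun ω => ‖GR t (fun p => lam * ω p) (Ω \ {x}) z x' y‖ₑ ^ (1 - h)) ω := by
    intro x'
    exact (hme (Ω \ {x}) x' y).indicator (measurableSet_lt (hm _ _ _).norm measurable_const)
  have hR : ∀ x', Measurable fun ω : ι → ℝ =>
      {ω : ι → ℝ | lam ≤ ‖GR t (fun p => lam * ω p) (Ω \ {x}) z x' x'‖}.indicator
        (fun ω => ‖GR t (fun p => lam * ω p) Ω z x y‖ₑ ^ (1 - h)) ω := by
    intro x'
    exact (hme Ω x y).indicator (measurableSet_le measurable_const (hm _ _ _).norm)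
  have hX : Measurable fun ω : ι → ℝ =>
      A.indicator (fun ω => ‖GR t (fun p => lam * ω p) Ω z x x‖ₑ ^ (1 - h)) ω :=
    (hme Ω x x).indicator hA
  calc _ ≤ ∫⁻ ω, (A.indicator (fun ω => ‖GR t (fun p => lam * ω p) Ω z x x‖ₑ ^ (1 - h)) ω *
        ∑ x' ∈ N x, {ω : ι → ℝ | ‖GR t (fun p => lam * ω p) (Ω \ {x}) z x' x'‖ < lam}.indicator
          (fun ω => ‖GR t (fun p => lam * ω p) (Ω \ {x}) z x' y‖ₑ ^ (1 - h)) ω +
      ∑ x' ∈ N x, {ω : ι → ℝ | lam ≤ ‖GR t (fun p => lam * ω p) (Ω \ {x}) z x' x'‖}.indicator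
        (fun ω => ‖GR t (fun p => lam * ω p) Ω z x y‖ₑ ^ (1 - h)) ω)
        ∂(Measure.infinitePi fun _ : ι => μ) :=
        lintegral_mono fun ω => pt_le hS hG h0 h1 Ω hz x hx y hy A ω
    _ = (∫⁻ ω, (A.indicator (fun ω => ‖GR t (fun p => lam * ω p) Ω z x x‖ₑ ^ (1 - h)) ω *
        ∑ x' ∈ N x, {ω : ι → ℝ | ‖GR t (fun p => lam * ω p) (Ω \ {x}) z x' x'‖ < lam}.indicator
          (fun ω => ‖GR t (fun p => lam * ω p) (Ω \ {x}) z x' y‖ₑ ^ (1 - h)) ω)
        ∂(Measure.infinitePi fun _ : ι => μ)) + ∑ x' ∈ N x, fo μ lam (1 - h) t Ω z x x' y := by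
        rw [lintegral_add_right _ (Finset.measurable_sum _ fun x' _ => hR x'),
          lintegral_finsetSum _ fun x' _ => hR x']
        rfl
    _ ≤ _ := by
        gcongr
        have hmul : Measurable (fun ω : ι → ℝ =>
            A.indicator (fun ω => ‖GR t (fun p => lam * ω p) Ω z x x‖ₑ ^ (1 - h)) ω *
            ∑ x' ∈ N x, {ω : ι → ℝ | ‖GR t (fun p => lam * ω p) (Ω \ {x}) z x' x'‖ < lam}.indicator
              (fun ω => ‖GR t (fun p => lam * ω p) (Ω \ {x}) z x' y‖ₑ ^ (1 - h)) ω) :=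
          hX.mul (Finset.measurable_sum _ fun x' _ => hF x')
        rw [lint_resample μ x _ hmul]
        have e1 : ∀ ω : ι → ℝ, ∫⁻ v, A.indicator (fun ω =>
              ‖GR t (fun p => lam * ω p) Ω z x x‖ₑ ^ (1 - h)) (Function.update ω x v) *
            ∑ x' ∈ N x, {ω : ι → ℝ | ‖GR t (fun p => lam * ω p) (Ω \ {x}) z x' x'‖ < lam}.indicator
              (fun ω => ‖GR t (fun p => lam * ω p) (Ω \ {x}) z x' y‖ₑ ^ (1 - h))
              (Function.update ω x v) ∂μ ≤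
            c * ∑ x' ∈ N x, {ω : ι → ℝ | ‖GR t (fun p => lam * ω p) (Ω \ {x}) z x' x'‖ < lam}.indicator
              (fun ω => ‖GR t (fun p => lam * ω p) (Ω \ {x}) z x' y‖ₑ ^ (1 - h)) ω := by
          intro ω
          have e2 : ∀ v x', {ω : ι → ℝ | ‖GR t (fun p => lam * ω p) (Ω \ {x}) z x' x'‖ < lam}.indicator
              (fun ω => ‖GR t (fun p => lam * ω p) (Ω \ {x}) z x' y‖ₑ ^ (1 - h))
              (Function.update ω x v) =
              {ω : ι → ℝ | ‖GR t (fun p => lam * ω p) (Ω \ {x}) z x' x'‖ < lam}.indicator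
              (fun ω => ‖GR t (fun p => lam * ω p) (Ω \ {x}) z x' y‖ₑ ^ (1 - h)) ω := by
            intro v x'
            simp only [Set.indicator_apply, Set.mem_ofPred_eq, gr1_update hS hG lam Ω hz x ω v]
          simp only [e2]
          have hXv : Measurable (fun v : ℝ => A.indicator (fun ω =>
              ‖GR t (fun p => lam * ω p) Ω z x x‖ₑ ^ (1 - h)) (Function.update ω x v)) :=
            hX.comp ((update_meas x).comp (measurable_prodMk_left (x := ω)))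
          rw [lintegral_mul_const _ hXv]
          gcongr
          exact hc ω
        refine (lintegral_mono e1).trans ?_
        rw [lintegral_const_mul _ (Finset.measurable_sum _ fun x' _ => hF x'),
          lintegral_finsetSum _ fun x' _ => hF x']
        rfl

theorem mainx (hS : S_sch) (hO : S_one) (hM : S_measR) : S_mainx := by
  classical
  intro D lam h hD hlam h0 h1 μ _ hμ ι _ K t N hG Ω z x hz hx
  have hm : ∀ (Ω : Set ι) (p q : ι), Measurable fun ω : ι → ℝ => GR t (fun p => lam * ω p) Ω z p q :=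
    fun Ω p q => hM ι K t N hG lam Ω z p q hz.ne'
  have hme : ∀ (Ω : Set ι) (p q : ι),
      Measurable fun ω : ι → ℝ => ‖GR t (fun p => lam * ω p) Ω z p q‖ₑ ^ (1 - h) :=
    fun Ω p q => (hm Ω p q).enorm.pow_const _
  have hA : MeasurableSet {ω : ι → ℝ | ‖GR t (fun p => lam * ω p) Ω z x x‖ < lam} :=
    measurableSet_lt (hm _ _ _).norm measurable_const
  have c1 := diag_le hS hO hD hlam h0 h1 μ hμ hG Ω hz x hx
  have c2 := diag_le' hS hO hD hlam h0 h1 μ hμ hG Ω hz x hx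
  refine ⟨?_, ?_, ?_⟩
  · unfold fa
    rw [lint_resample μ x _ (hme Ω x x)]
    refine (lintegral_mono c1).trans (le_of_eq ?_)
    rw [lintegral_const, measure_univ, mul_one]
  · unfold fb
    rw [lint_resample μ x _ ((hme Ω x x).indicator hA)]
    refine (lintegral_mono c2).trans (le_of_eq ?_)
    rw [lintegral_const, measure_univ, mul_one]
  · intro y hy
    constructor
    · have h2 := step hS hM hG h0 h1 μ Ω hz x hx y hy Set.univ MeasurableSet.univ
        (ENNReal.ofReal (cC D lam h)) (by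
          intro ω
          simp only [Set.indicator_univ]
          exact c1 ω)
      simp only [Set.indicator_univ] at h2
      exact h2
    · exact step hS hM hG h0 h1 μ Ω hz x hx y hy _ hA (ENNReal.ofReal (cM D lam h)) c2

end Pool.Agent.H105.SH
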